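import Pool.Agent.H578.Sec.Uni1

set_option autoImplicit false

/-!
# The factors of the almost primes `n ^ 2 + 1`: size and direction, in short windows and short sectors

The `n ≤ N` for which `n ^ 2 + 1` has no prime factor below `N ^ w` are those with `n ^ 2 + 1` prime
and those for which `n + i` has a proper factor in `ℤ[i]`.  Every proper factor has exactly one
associate `u + i v` with `u > 0`, `-u < v ≤ u`; it has a slope `v / u ∈ [-1, 1]` and a norm
`u ^ 2 + v ^ 2`.  We show that at most `C (β - α) (1 + log (z / y)) N / (log N) ^ 2` of these `n` have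
a proper factor with slope in `[α, β]` and norm in `[y, z]`, with `C` depending on `w` only, uniformly
in the window `[y, z]` and in the sector `[α, β]` of width at least `N ^ (-w / 80)`.  For
`z = 2 y` this is `≪ (β - α) N / (log N) ^ 2`.  This includes the norms near `N`, which the level
of distribution of `n ^ 2 + 1` does not reach.
-/

namespace Pool.Agent.Results.MP_484c84_nt.FactorDensity

open Finset Filter
open scoped Classical

/-- `n + i = (u + i v) (r + i s)` in `ℤ[i]` with both factors non-units, where `u > 0`, `|v| ≤ u`, the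
slope `v / u` lies in `[α, β]` and the norm `u ^ 2 + v ^ 2` in `[A, B]`. -/
def HasFactor (n : ℕ) (α β A B : ℝ) : Prop :=
  ∃ u v r s : ℤ, u * r - v * s = n ∧ u * s + v * r = 1 ∧ 1 < u ^ 2 + v ^ 2 ∧ 1 < r ^ 2 + s ^ 2 ∧
    0 < u ∧ |v| ≤ u ∧ α * (u : ℝ) ≤ (v : ℝ) ∧ (v : ℝ) ≤ β * (u : ℝ) ∧
    A ≤ (u : ℝ) ^ 2 + (v : ℝ) ^ 2 ∧ (u : ℝ) ^ 2 + (v : ℝ) ^ 2 ≤ B

/-- For every `0 < w ≤ 1` there is `C` such that for all large `N`, all `-1 ≤ α < β ≤ 1` with
`β - α ≥ N ^ (-w / 80)` and all `0 < y ≤ z`, at most `C (β - α) (1 + log (z / y)) N / (log N) ^ 2`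
integers `n ≤ N` are such that `n ^ 2 + 1` has no prime factor below `N ^ w` and `n + i` has a proper
factor with slope in `[α, β]` and norm in `[y, z]`. -/
theorem result (w : ℝ) (hw : 0 < w) (hw1 : w ≤ 1) : ∃ C : ℝ, 0 < C ∧ ∀ᶠ N : ℕ in atTop,
    ∀ α β y z : ℝ, -1 ≤ α → β ≤ 1 → (N : ℝ) ^ (-(w / 80)) ≤ β - α → 0 < y → y ≤ z →
      (((Icc 1 N).filter (fun n : ℕ =>
        (∀ p : ℕ, p.Prime → p ∣ n ^ 2 + 1 → (N : ℝ) ^ w ≤ p) ∧ HasFactor n α β y z)).card : ℝ) ≤
        C * (β - α) * (1 + Real.log (z / y)) * N / (Real.log N) ^ 2 :=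
  Pool.Agent.H578.Sec.fbs_le w hw hw1

end Pool.Agent.Results.MP_484c84_nt.FactorDensity
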