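import Mathlib
import Pool.Agent.H814.LR.FinG

set_option autoImplicit false

/-!
# Long runs of integers `n` for which `n ^ 2 + 1` is composite

Ford, Konyagin, Maynard, Pomerance and Tao (Long gaps in sieved sets) proved that for every polynomial there are,
up to `N`, runs of at least `(log N) (log log N) ^ δ` consecutive integers `n` at which its value is not a prime,
where `δ > 0` is small and depends on the degree.  For quadratic polynomials with non-square discriminant, for
instance `n ^ 2 + 1`, we obtain runs of length `κ (log N) (log log N)`, in every interval `(M, M + N]`, `M ≥ N`.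

Method.  Classes modulo the primes up to `(log N) / 10` are chosen greedily; since a prime `p` removes the
proportion `(1 + (Δ/p)) / p` of the remaining shifts and `∑ (Δ/p) / p` is bounded (Siegel-Walfisz theorem of the
library), at most a small multiple of `log N` of the shifts survive.  The survivors are killed all at once by primes
between `(log N) ^ 2` and `N ^ (1/10)`: the covering theorem of the starting library (`Pool.Agent.Y837.SV.mcov`,
helper256, helper378, helper837) is extended to colours with arbitrary densities at most `2 / p` whose sums over the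
primes are not much smaller than those of `1 / p` (`Pool.Agent.H814.LR.mcovX`).  A class modulo `p` kills two
survivors `h`, `h'` only if `p` divides `(h - h')² - 4 Δ`, which is so for few primes.
-/

namespace Pool.Agent.Results.MP_484c84_nt.LongPrimeFreeRuns

/-- Let `a, b, c` be integers such that `b ^ 2 - 4 a c` is not a square (for instance `n ^ 2 + 1`). There are `κ > 0`
and `N₀` such that for all `N ≥ N₀` and `M ≥ N` there is `m` with `M < m ≤ M + N` such that for all integers `n` with
`m < n ≤ m + κ log N log log N` the value `a n ^ 2 + b n + c` is not (plus or minus) a prime; it has a prime factor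
`p ≤ N ^ (1/10)`. -/
theorem result (a b c : ℤ) (hΔ : ¬ IsSquare (b ^ 2 - 4 * a * c)) : ∃ κ : ℝ, 0 < κ ∧ ∃ N₀ : ℕ,
    ∀ N : ℕ, N₀ ≤ N → ∀ M : ℕ, N ≤ M → ∃ m : ℕ, M < m ∧ m ≤ M + N ∧ ∀ n : ℕ, m < n →
      (n : ℝ) ≤ m + κ * Real.log N * Real.log (Real.log N) →
      ¬ Prime (a * (n : ℤ) ^ 2 + b * n + c) ∧
        ∃ p : ℕ, p.Prime ∧ (p : ℝ) ≤ (N : ℝ) ^ (1 / 10 : ℝ) ∧ (p : ℤ) ∣ a * (n : ℤ) ^ 2 + b * n + c :=
  Pool.Agent.H814.LR.runs_quad a b c hΔ

end Pool.Agent.Results.MP_484c84_nt.LongPrimeFreeRuns
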