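import Pool.Agent.helper616_RP.Main5
import Pool.Agent.helper616_RP.Var

/-!
# Primes `n ^ 2 + 1 + ⌊α n + β n ^ γ⌋` for almost all `α`, `β`

Fix `γ` in `(2 / 3, 1)`. For almost all real `(α, β)` the number of `n < N` for which
`n ^ 2 + 1 + ⌊α n + β n ^ γ⌋` is prime is `~ N / (2 log N)`, with an error `O (N / (log N) ^ A)` for the sum with
weights `log p`, for every `A`.  Here the leading coefficient is the given one; only lower terms are random.
(This is `k = 1`, `g n = n ^ 2 + 1`, `e = 2`, `c = 1`, `c' = γ` below.)

General form: let `g` be a real function on the natural numbers with `g (n) ≤ K n ^ e` and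
`g (n + 1) - g (n) ≥ δ n ^ (e - 1)` for large `n` (for example a given polynomial of degree `e` with positive
leading coefficient, or `n ^ 2 + π (n)` with `e = 2`), and let `e - 1 ≤ c < e`, `e / 3 < c' < c`.  For almost all
`(α, β)` the integers `⌊g (n) + α n ^ c + β n ^ (c')⌋` are prime as often as expected.  The same holds for systems.
For example, for `d ≥ 4`, this is so for almost all monic real polynomials of degree `d` (with `c = d - 1`,
`c' = d - 2`; Fubini for the other coefficients).

Proof.  The mean square over `(α, β)` in a unit square and over the pairs `(n, m)`.  For `n < m` translate `(α, β)`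
along the line on which `α n ^ c + β n ^ (c')` is constant: the value at `m` runs over an interval of length `m ^ (c' - ε)`,
larger than its size to the power `1 / 3`.  Summed over `m`, the ranges of these values cover the integers with
bounded multiplicity, and the primes in almost all such intervals are known (`S_SIL13` of helper24's project UT).
-/

set_option autoImplicit false

open Finset MeasureTheory Filter Topology

namespace Pool.Agent.Results.MP_484c84_nt.RandomLowerTerms

/-- `log m` if `m` is prime, and `0` otherwise. -/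
noncomputable def logPrime (m : ℕ) : ℝ := if m.Prime then Real.log m else 0

/-- The integer part of `g n + α n ^ c + β n ^ c'`, where `ω = (α, β)` (`0` if this number is negative). -/
noncomputable def value (c c' : ℝ) (g : ℕ → ℝ) (ω : ℝ × ℝ) (n : ℕ) : ℕ :=
  ⌊ω.1 * (n : ℝ) ^ c + ω.2 * (n : ℝ) ^ c' + g n⌋₊

theorem result (k : ℕ) (c c' e : Fin k → ℝ) (g : Fin k → ℕ → ℝ) (hc' : ∀ i, e i / 3 < c' i)
    (hcc : ∀ i, c' i < c i) (hce : ∀ i, c i < e i) (hec : ∀ i, e i ≤ c i + 1)
    (hg : ∀ i, ∃ δ K : ℝ, 0 < δ ∧ ∀ᶠ n : ℕ in atTop,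
      g i n ≤ K * (n : ℝ) ^ (e i) ∧ δ * (n : ℝ) ^ (e i - 1) ≤ g i (n + 1) - g i n) :
    ∀ᵐ ω : Fin k → ℝ × ℝ,
      (∀ A : ℕ, ∃ C : ℝ, ∀ N : ℕ, 2 ≤ N →
        |∑ n ∈ range N, ∏ i, logPrime (value (c i) (c' i) (g i) (ω i) n) - N| ≤ C * N / (Real.log N) ^ A) ∧
      Tendsto (fun N : ℕ =>
        (((range N).filter (fun n => ∀ i, (value (c i) (c' i) (g i) (ω i) n).Prime)).card : ℝ) /
          ∑ n ∈ (range N).filter (fun n => 2 ≤ n), ∏ i, 1 / (e i * Real.log n)) atTop (𝓝 1) :=
  helper616_RP.main_e helper616_RP.t_VAR c c' e g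
    (fun i => by have h1 := hc' i; have h2 := hcc i; have h3 := hce i; linarith) hcc hce hec hc' hg

end Pool.Agent.Results.MP_484c84_nt.RandomLowerTerms
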